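import Pool.Agent.Helper29.MS.Base

/-!
# CR, leaf K2 (MP_ad1693_nt): a small window around one zero
-/

set_option autoImplicit false

namespace Pool.Agent.Helper16.CR

open Complex Filter Topology MeasureTheory Set Metric
open Pool.Agent.Helper13.Bsd Pool.Agent.Helper7.GW Pool.Agent.Helper58.BSD Pool.Agent.Helper29.MS

/-- the logarithmic derivative near a zero -/
theorem log_deriv_eq {L G g : ℂ → ℂ} (hd : DifferentiableOn ℂ L {w : ℂ | 0 < w.re})
    (hexp : ∀ w : ℂ, 0 < w.re → cexp (L w) = G w) (c0 : ℂ) (m : ℕ) {w : ℂ} (hw : 0 < w.re)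
    (hne : w ≠ c0) (hga : AnalyticAt ℂ g w) (hgw : g w ≠ 0)
    (hG : ∀ᶠ v in 𝓝 w, G v = (v - c0) ^ m * g v) :
    deriv L w = m / (w - c0) + deriv g w / g w := by
  have hopen : IsOpen {w : ℂ | 0 < w.re} := isOpen_lt continuous_const continuous_re
  have h1 : HasDerivAt L (deriv L w) w :=
    (hd.differentiableAt (hopen.mem_nhds hw)).hasDerivAt
  have h2 : HasDerivAt (fun v => cexp (L v)) (cexp (L w) * deriv L w) w := h1.cexp
  have h3 : (fun v => cexp (L v)) =ᶠ[𝓝 w] fun v => (v - c0) ^ m * g v := by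
    filter_upwards [hopen.mem_nhds hw, hG] with v hv hv2
    rw [hexp v hv, hv2]
  have h4 : HasDerivAt (fun v : ℂ => (v - c0) ^ m) ((m : ℂ) * (w - c0) ^ (m - 1) * 1) w :=
    ((hasDerivAt_id w).sub_const c0).pow m
  have h5 : HasDerivAt (fun v : ℂ => (v - c0) ^ m * g v)
      ((m : ℂ) * (w - c0) ^ (m - 1) * 1 * g w + (w - c0) ^ m * deriv g w) w :=
    h4.mul hga.differentiableAt.hasDerivAt
  have h6 := (h2.congr_of_eventuallyEq h3.symm).unique h5
  have h7 : cexp (L w) = (w - c0) ^ m * g w := h3.self_of_nhds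
  have hz : w - c0 ≠ 0 := sub_ne_zero.2 hne
  rw [h7] at h6
  have hzm : (w - c0) ^ m ≠ 0 := pow_ne_zero _ hz
  have h8 : (m : ℂ) * (w - c0) ^ (m - 1) = m * (w - c0) ^ m / (w - c0) := by
    rcases Nat.eq_zero_or_pos m with h0 | h0
    · subst h0
      simp
    · obtain ⟨j, rfl⟩ : ∃ j, m = j + 1 := ⟨m - 1, by omega⟩
      rw [Nat.add_sub_cancel, pow_succ]
      field_simp
  rw [h8] at h6
  apply mul_left_cancel₀ (mul_ne_zero hzm hgw)
  rw [h6]
  field_simp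

theorem norm_sq_bound {a b : ℂ} {M : ℝ} (hb : ‖b‖ ≤ M) :
    |‖a + b‖ ^ 2 - ‖a‖ ^ 2| ≤ 2 * ‖a‖ * M + M ^ 2 := by
  have hM : 0 ≤ M := (norm_nonneg _).trans hb
  have h1 : |‖a + b‖ - ‖a‖| ≤ M := by
    refine (abs_norm_sub_norm_le _ _).trans ?_
    rwa [add_sub_cancel_left]
  have h2 := norm_nonneg a
  have h3 := norm_nonneg (a + b)
  rw [abs_le] at h1 ⊢
  constructor
  · nlinarith [h1.1, h1.2]
  · nlinarith [h1.1, h1.2]

variable {v : ℝ → ℝ} {G : ℂ → ℂ} {A a η B c : ℝ} {k : ℕ}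

/-- K2 with the Poisson integral as a hypothesis -/
theorem window_of (hP : ∀ γ ε : ℝ, 0 < ε → ε < |γ| →
      Tendsto (fun σ : ℝ => σ * ∫ τ in Icc (γ - ε) (γ + ε),
        (‖(σ : ℂ) + (τ : ℂ) * I - (γ : ℂ) * I‖ ^ 2)⁻¹ * (‖(σ : ℂ) + (τ : ℂ) * I‖ ^ 2)⁻¹) (𝓝[>] 0)
        (𝓝 (Real.pi / γ ^ 2)))
    {L : ℂ → ℂ} (hL : Branch v G a L) (γ : ℝ) (hγ : γ ≠ 0) (m : ℕ)
    (g : ℂ → ℂ) (hg : AnalyticAt ℂ g (γ * I)) (hg0 : g (γ * I) ≠ 0)
    (hG : ∀ᶠ w in 𝓝 (γ * I : ℂ), G w = (w - γ * I) ^ m * g w) :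
    ∃ ε0 : ℝ, 0 < ε0 ∧ ∀ ε : ℝ, 0 < ε → ε ≤ ε0 →
      Tendsto (fun σ : ℝ => σ * ∫ τ in Icc (γ - ε) (γ + ε),
        ‖deriv L ((σ : ℂ) + (τ : ℂ) * I)‖ ^ 2 * (‖(σ : ℂ) + (τ : ℂ) * I‖ ^ 2)⁻¹) (𝓝[>] 0)
        (𝓝 ((m : ℝ) ^ 2 * (Real.pi / γ ^ 2))) := by
  set c0 : ℂ := γ * I with hc0
  set M : ℝ := ‖deriv g c0 / g c0‖ + 1 with hM
  have hR : ContinuousAt (fun w => deriv g w / g w) c0 :=
    hg.deriv.continuousAt.div hg.continuousAt hg0
  have hRb : ∀ᶠ w in 𝓝 c0, ‖deriv g w / g w‖ < M :=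
    hR.norm.eventually_lt continuousAt_const (by rw [hM]; exact lt_add_one _)
  obtain ⟨r0, hr0, hball⟩ := Metric.eventually_nhds_iff_ball.1
    (hRb.and (hg.eventually_analyticAt.and ((hg.continuousAt.eventually_ne hg0).and
      hG.eventually_nhds)))
  have hγ0 : 0 < |γ| := abs_pos.2 hγ
  refine ⟨min (r0 / 2) (|γ| / 2), lt_min (by positivity) (by positivity), fun ε hε hεle => ?_⟩
  have hε1 : ε ≤ r0 / 2 := hεle.trans (min_le_left _ _)
  have hε2 : ε ≤ |γ| / 2 := hεle.trans (min_le_right _ _)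
  have hPε := hP γ ε hε (by linarith)
  set P : ℝ → ℝ := fun σ : ℝ => σ * ∫ τ in Icc (γ - ε) (γ + ε),
    (‖(σ : ℂ) + (τ : ℂ) * I - (γ : ℂ) * I‖ ^ 2)⁻¹ * (‖(σ : ℂ) + (τ : ℂ) * I‖ ^ 2)⁻¹ with hPdef
  set F : ℝ → ℝ := fun σ : ℝ => σ * ∫ τ in Icc (γ - ε) (γ + ε),
    ‖deriv L ((σ : ℂ) + (τ : ℂ) * I)‖ ^ 2 * (‖(σ : ℂ) + (τ : ℂ) * I‖ ^ 2)⁻¹ with hFdef
  set C1 : ℝ := 4 / γ ^ 2 * (2 * ε) with hC1
  have hM0 : 0 ≤ M := by positivity
  -- the main estimate
  have hmain : ∀ σ : ℝ, 0 < σ → σ < r0 / 2 →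
      |F σ - (m : ℝ) ^ 2 * P σ| ≤ m * M * √σ * P σ + (m * M * √σ + M ^ 2 * σ) * C1 := by
    intro σ hσ hσr
    set s := √σ with hs
    have hs0 : 0 < s := Real.sqrt_pos.2 hσ
    have hss : s * s = σ := Real.mul_self_sqrt hσ.le
    -- notation
    set w : ℝ → ℂ := fun τ => (σ : ℂ) + (τ : ℂ) * I with hw
    have hwre : ∀ τ, (w τ).re = σ := fun τ => by simp [hw]
    have hwim : ∀ τ, (w τ).im = τ := fun τ => by simp [hw]
    have hwpos : ∀ τ, 0 < (w τ).re := fun τ => by rw [hwre]; exact hσ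
    have hwc : Continuous w := by fun_prop
    have hw0 : ∀ τ, w τ ≠ 0 := fun τ h => by
      have := hwpos τ
      rw [h] at this
      simp at this
    have hz0 : ∀ τ, w τ - γ * I ≠ 0 := fun τ h => by
      have h1 := congrArg Complex.re h
      simp [hw] at h1
      exact hσ.ne' h1
    have hopen : IsOpen {w : ℂ | 0 < w.re} := isOpen_lt continuous_const continuous_re
    have hLd : Continuous fun τ => deriv L (w τ) := by
      have h1 : ContinuousOn (deriv L) {w : ℂ | 0 < w.re} := (hL.diff.deriv hopen).continuousOn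
      exact h1.comp_continuous hwc fun τ => hwpos τ
    set f1 : ℝ → ℝ := fun τ => ‖deriv L (w τ)‖ ^ 2 * (‖w τ‖ ^ 2)⁻¹ with hf1
    set f2 : ℝ → ℝ := fun τ => (‖w τ - (γ : ℂ) * I‖ ^ 2)⁻¹ * (‖w τ‖ ^ 2)⁻¹ with hf2
    set f3 : ℝ → ℝ := fun τ => (‖w τ‖ ^ 2)⁻¹ with hf3
    have hc3 : Continuous f3 := by
      refine Continuous.inv₀ (by fun_prop) fun τ => ?_
      have := norm_pos_iff.2 (hw0 τ)
      positivity
    have hc2 : Continuous f2 := by
      refine Continuous.mul (Continuous.inv₀ (by fun_prop) fun τ => ?_) hc3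
      have := norm_pos_iff.2 (hz0 τ)
      positivity
    have hc1 : Continuous f1 := (hLd.norm.pow 2).mul hc3
    have hi1 : IntegrableOn f1 (Icc (γ - ε) (γ + ε)) := hc1.continuousOn.integrableOn_Icc
    have hi2 : IntegrableOn f2 (Icc (γ - ε) (γ + ε)) := hc2.continuousOn.integrableOn_Icc
    have hi3 : IntegrableOn f3 (Icc (γ - ε) (γ + ε)) := hc3.continuousOn.integrableOn_Icc
    have hFe : F σ = σ * ∫ τ in Icc (γ - ε) (γ + ε), f1 τ := rfl
    have hPe : P σ = σ * ∫ τ in Icc (γ - ε) (γ + ε), f2 τ := rfl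
    -- pointwise
    have hpt : ∀ τ ∈ Icc (γ - ε) (γ + ε), |f1 τ - (m : ℝ) ^ 2 * f2 τ| ≤
        m * M * s * f2 τ + (m * M * s⁻¹ + M ^ 2) * f3 τ := by
      intro τ hτ
      have hmem : w τ ∈ ball c0 r0 := by
        rw [mem_ball, dist_eq_norm]
        have e1 : w τ - c0 = (σ : ℂ) + ((τ - γ : ℝ) : ℂ) * I := by
          rw [hw, hc0]; push_cast; ring
        rw [e1]
        calc ‖(σ : ℂ) + ((τ - γ : ℝ) : ℂ) * I‖ ≤ ‖(σ : ℂ)‖ + ‖((τ - γ : ℝ) : ℂ) * I‖ :=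
              norm_add_le _ _
          _ = σ + |τ - γ| := by
              rw [norm_mul, norm_I, mul_one, norm_real, norm_real, Real.norm_eq_abs,
                Real.norm_eq_abs, abs_of_pos hσ]
          _ < r0 := by
              have : |τ - γ| ≤ ε := by rw [abs_le]; constructor <;> linarith [hτ.1, hτ.2]
              linarith
      obtain ⟨hb1, hb2, hb3, hb4⟩ := hball _ hmem
      have hne : w τ ≠ c0 := fun h => hz0 τ (by rw [h, hc0, sub_self])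
      have hder := log_deriv_eq hL.diff hL.exp c0 m (hwpos τ) hne hb2 hb3 hb4
      have hzpos : 0 < ‖w τ - c0‖ := norm_pos_iff.2 (sub_ne_zero.2 hne)
      have hb5 := norm_sq_bound (a := (m : ℂ) / (w τ - c0)) hb1.le
      rw [← hder] at hb5
      have e2 : ‖(m : ℂ) / (w τ - c0)‖ = m * ‖w τ - c0‖⁻¹ := by
        rw [norm_div, norm_natCast, div_eq_mul_inv]
      rw [e2] at hb5
      have h3n : 0 ≤ f3 τ := by positivity
      have e3 : f1 τ - (m : ℝ) ^ 2 * f2 τ =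
          (‖deriv L (w τ)‖ ^ 2 - (m * ‖w τ - c0‖⁻¹) ^ 2) * f3 τ := by
        rw [hf1, hf2, hf3, hc0]
        simp only
        rw [mul_pow, inv_pow]
        ring
      rw [e3, abs_mul, abs_of_nonneg h3n]
      have e4 : f2 τ = ‖w τ - c0‖⁻¹ ^ 2 * f3 τ := by
        rw [hf2, hf3, hc0]
        simp only
        rw [inv_pow]
      rw [e4]
      set u := ‖w τ - c0‖⁻¹ with hu
      have h6 : 2 * u ≤ s * u ^ 2 + s⁻¹ := by
        have h7 : 0 ≤ (s * u - 1) ^ 2 * s⁻¹ := by positivity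
        have h8 : (s * u - 1) ^ 2 * s⁻¹ = s * u ^ 2 + s⁻¹ - 2 * u := by
          field_simp
          ring
        linarith
      have h9 : 2 * (m * u) * M + M ^ 2 ≤ m * M * s * u ^ 2 + (m * M * s⁻¹ + M ^ 2) := by
        have h10 : (m : ℝ) * M * (2 * u) ≤ m * M * (s * u ^ 2 + s⁻¹) :=
          mul_le_mul_of_nonneg_left h6 (by positivity)
        nlinarith
      calc |‖deriv L (w τ)‖ ^ 2 - (m * u) ^ 2| * f3 τ
          ≤ (2 * (m * u) * M + M ^ 2) * f3 τ := mul_le_mul_of_nonneg_right hb5 h3n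
        _ ≤ (m * M * s * u ^ 2 + (m * M * s⁻¹ + M ^ 2)) * f3 τ :=
            mul_le_mul_of_nonneg_right h9 h3n
        _ = _ := by ring
    have hW : ∫ τ in Icc (γ - ε) (γ + ε), f3 τ ≤ C1 := by
      have h1 : ∫ τ in Icc (γ - ε) (γ + ε), f3 τ ≤ ∫ τ in Icc (γ - ε) (γ + ε), 4 / γ ^ 2 := by
        refine setIntegral_mono_on hi3 (by simp) measurableSet_Icc fun τ hτ => ?_
        have h2 : |γ| / 2 ≤ |τ| := by
          have h3 : |τ - γ| ≤ ε := by rw [abs_le]; constructor <;> linarith [hτ.1, hτ.2]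
          have h4 := abs_sub_abs_le_abs_sub γ τ
          rw [abs_sub_comm] at h4
          linarith
        have h5 : |τ| ≤ ‖w τ‖ := by
          have := abs_im_le_norm (w τ)
          rwa [hwim] at this
        have h6 : γ ^ 2 / 4 ≤ ‖w τ‖ ^ 2 := by
          rw [← sq_abs γ]
          nlinarith [abs_nonneg γ]
        have h7 : 4 / γ ^ 2 = (γ ^ 2 / 4)⁻¹ := by rw [inv_div]
        rw [h7]
        exact inv_anti₀ (by positivity) h6
      refine h1.trans (le_of_eq ?_)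
      rw [setIntegral_const, smul_eq_mul, hC1, Real.volume_real_Icc_of_le (by linarith)]
      ring
    have hdiff : F σ - (m : ℝ) ^ 2 * P σ =
        σ * ∫ τ in Icc (γ - ε) (γ + ε), (f1 τ - (m : ℝ) ^ 2 * f2 τ) := by
      rw [integral_sub hi1 (hi2.const_mul _), integral_const_mul, hFe, hPe]
      ring
    rw [hdiff, abs_mul, abs_of_pos hσ]
    have hint : |∫ τ in Icc (γ - ε) (γ + ε), (f1 τ - (m : ℝ) ^ 2 * f2 τ)| ≤
        m * M * s * (∫ τ in Icc (γ - ε) (γ + ε), f2 τ) +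
          (m * M * s⁻¹ + M ^ 2) * ∫ τ in Icc (γ - ε) (γ + ε), f3 τ := by
      rw [← integral_const_mul, ← integral_const_mul, ← integral_add (hi2.const_mul _)
        (hi3.const_mul _), ← Real.norm_eq_abs]
      refine (norm_integral_le_integral_norm _).trans ?_
      refine setIntegral_mono_on (hi1.sub (hi2.const_mul _)).norm
        ((hi2.const_mul _).add (hi3.const_mul _)) measurableSet_Icc fun τ hτ => ?_
      rw [Real.norm_eq_abs]
      exact hpt τ hτ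
    have h11 : σ * (m * M * s * (∫ τ in Icc (γ - ε) (γ + ε), f2 τ) +
          (m * M * s⁻¹ + M ^ 2) * ∫ τ in Icc (γ - ε) (γ + ε), f3 τ) =
        m * M * s * P σ + (m * M * s + M ^ 2 * σ) * ∫ τ in Icc (γ - ε) (γ + ε), f3 τ := by
      rw [hPe]
      have h12 : σ * s⁻¹ = s := by rw [← hss]; field_simp
      calc _ = m * M * s * (σ * ∫ τ in Icc (γ - ε) (γ + ε), f2 τ) +
            (m * M * (σ * s⁻¹) + M ^ 2 * σ) * ∫ τ in Icc (γ - ε) (γ + ε), f3 τ := by ring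
        _ = _ := by rw [h12]
    refine (mul_le_mul_of_nonneg_left hint hσ.le).trans ?_
    rw [h11]
    have h13 : (m * M * s + M ^ 2 * σ) * (∫ τ in Icc (γ - ε) (γ + ε), f3 τ) ≤
        (m * M * s + M ^ 2 * σ) * C1 := mul_le_mul_of_nonneg_left hW (by positivity)
    linarith
  -- the limit
  have hsq : Tendsto (fun σ : ℝ => √σ) (𝓝[>] 0) (𝓝 0) := by
    have h1 : Tendsto (fun σ : ℝ => √σ) (𝓝 0) (𝓝 (√0)) := Real.continuous_sqrt.tendsto 0
    rw [Real.sqrt_zero] at h1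
    exact h1.mono_left nhdsWithin_le_nhds
  have hid : Tendsto (fun σ : ℝ => σ) (𝓝[>] 0) (𝓝 0) := nhdsWithin_le_nhds
  have hE : Tendsto (fun σ : ℝ => m * M * √σ * P σ + (m * M * √σ + M ^ 2 * σ) * C1) (𝓝[>] 0)
      (𝓝 0) := by
    have h1 := ((hsq.const_mul (m * M)).mul hPε).add
      (((hsq.const_mul (m * M)).add (hid.const_mul (M ^ 2))).mul_const C1)
    have h2 : (m : ℝ) * M * 0 * (Real.pi / γ ^ 2) + (m * M * 0 + M ^ 2 * 0) * C1 = 0 := by ring
    rw [h2] at h1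
    exact h1
  have hD : Tendsto (fun σ : ℝ => F σ - (m : ℝ) ^ 2 * P σ) (𝓝[>] 0) (𝓝 0) := by
    refine squeeze_zero_norm' ?_ hE
    have h1 : Ioo (0 : ℝ) (r0 / 2) ∈ 𝓝[>] (0 : ℝ) := Ioo_mem_nhdsGT (by positivity)
    filter_upwards [h1] with σ hσ
    rw [Real.norm_eq_abs]
    exact hmain σ hσ.1 hσ.2
  have hfin := hD.add (hPε.const_mul ((m : ℝ) ^ 2))
  rw [zero_add] at hfin
  refine hfin.congr fun σ => ?_
  ring

end Pool.Agent.Helper16.CR
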